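import Mathlib

namespace Pool.Agent.Results.MP_325f40_co.OddRegularSelfTwoDistance

/-- The 2-distance graph: two vertices are adjacent when their distance in `G` is exactly `2`. -/
def twoDistanceGraph {V : Type*} (G : SimpleGraph V) : SimpleGraph V where
  Adj u v := G.dist u v = 2
  symm := ⟨fun u v h => by rw [SimpleGraph.dist_comm]; exact h⟩
  loopless := ⟨fun v h => by simp at h⟩

lemma dist_eq_two_iff {V : Type*} (G : SimpleGraph V) (u v : V) :
    G.dist u v = 2 ↔ u ≠ v ∧ ¬ G.Adj u v ∧ ∃ w, G.Adj u w ∧ G.Adj w v := by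
  constructor
  · intro h
    have hne : u ≠ v := by
      rintro rfl
      simp at h
    have hr : G.Reachable u v := by
      by_contra hr
      rw [SimpleGraph.dist_eq_zero_of_not_reachable hr] at h
      omega
    refine ⟨hne, ?_, ?_⟩
    · intro hadj
      rw [SimpleGraph.dist_eq_one_iff_adj.2 hadj] at h
      omega
    · obtain ⟨p, hp⟩ := hr.exists_walk_length_eq_dist
      rw [h] at hp
      cases p with
      | nil => simp at hp
      | cons h1 q =>
        cases q with
        | nil => simp at hp
        | cons h2 r =>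
          cases r with
          | nil => exact ⟨_, h1, h2⟩
          | cons h3 s => simp at hp
  · rintro ⟨hne, hnadj, w, h1, h2⟩
    have hle : G.dist u v ≤ 2 := by
      have := SimpleGraph.dist_le (SimpleGraph.Walk.cons h1 (SimpleGraph.Walk.cons h2 SimpleGraph.Walk.nil))
      simpa using this
    have hr : G.Reachable u v := h1.reachable.trans h2.reachable
    have h0 : G.dist u v ≠ 0 := by
      intro h
      exact hne (hr.dist_eq_zero_iff.1 h)
    have h1' : G.dist u v ≠ 1 := by
      intro h
      exact hnadj (SimpleGraph.dist_eq_one_iff_adj.1 h)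
    omega

/-- the graph on `m` blocks of four vertices -/
def blockGraph (m : ℕ) : SimpleGraph (Fin m × Bool × Bool) where
  Adj x y := (x.1 = y.1 ∧ x.2.1 ≠ y.2.1 ∧ x.2.2 ≠ y.2.2) ∨
    (x.1 ≠ y.1 ∧ xor x.2.2 y.2.2 = (x.2.1 && y.2.1))
  symm := by
    constructor
    rintro ⟨r, u, a⟩ ⟨s, v, b⟩ (⟨h1, h2, h3⟩ | ⟨h1, h2⟩)
    · exact Or.inl ⟨h1.symm, h2.symm, h3.symm⟩
    · refine Or.inr ⟨h1.symm, ?_⟩
      simp only at h2 ⊢
      rw [Bool.xor_comm, h2, Bool.and_comm]
  loopless := by
    constructor
    rintro ⟨r, u, a⟩ (⟨_, h2, _⟩ | ⟨h1, _⟩)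
    · exact h2 rfl
    · exact h1 rfl

lemma blockGraph_adj (m : ℕ) (r s : Fin m) (u v a b : Bool) :
    (blockGraph m).Adj (r, u, a) (s, v, b) ↔
      (r = s ∧ u ≠ v ∧ a ≠ b) ∨ (r ≠ s ∧ xor a b = (u && v)) := Iff.rfl

lemma exists_third {m : ℕ} (hm : 3 ≤ m) (r s : Fin m) : ∃ z : Fin m, z ≠ r ∧ z ≠ s := by
  have h : ∃ z ∈ (Finset.univ : Finset (Fin m)), z ∉ ({r, s} : Finset (Fin m)) := by
    apply Finset.exists_mem_notMem_of_card_lt_card
    rw [Finset.card_univ, Fintype.card_fin]
    have := Finset.card_le_two (a := r) (b := s)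
    omega
  obtain ⟨z, _, hz⟩ := h
  simp only [Finset.mem_insert, Finset.mem_singleton, not_or] at hz
  exact ⟨z, hz.1, hz.2⟩

lemma blockGraph_dist (m : ℕ) (hm : 3 ≤ m) (r s : Fin m) (u v a b : Bool) :
    (blockGraph m).dist (r, u, a) (s, v, b) = 2 ↔
      (r = s ∧ u ≠ v ∧ a = b) ∨ (r ≠ s ∧ xor a b ≠ (u && v)) := by
  rw [dist_eq_two_iff]
  constructor
  · rintro ⟨hne, hnadj, ⟨z, w, c⟩, h1, h2⟩
    rw [blockGraph_adj] at hnadj h1 h2
    by_cases hrs : r = s
    · subst hrs
      left
      refine ⟨rfl, ?_⟩
      by_cases huv : u = v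
      · exfalso
        subst huv
        have hab : a ≠ b := by
          rintro rfl
          exact hne rfl
        rcases h1 with ⟨_, h3, h4⟩ | ⟨h3, h4⟩
        · rcases h2 with ⟨_, h5, h6⟩ | ⟨h5, _⟩
          · revert hab h4 h6
            cases a <;> cases b <;> cases c <;> simp
          · subst_vars
            exact h5 rfl
        · rcases h2 with ⟨h5, _⟩ | ⟨h5, h6⟩
          · exact h3 h5.symm
          · revert hab h4 h6
            cases a <;> cases b <;> cases c <;> cases u <;> cases w <;> simp
      · refine ⟨huv, ?_⟩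
        by_contra hab
        exact hnadj (Or.inl ⟨rfl, huv, hab⟩)
    · right
      refine ⟨hrs, ?_⟩
      intro h
      exact hnadj (Or.inr ⟨hrs, h⟩)
  · rintro (⟨hrs, huv, hab⟩ | ⟨hrs, hab⟩)
    · subst hrs
      subst hab
      refine ⟨?_, ?_, ?_⟩
      · intro h
        simp only [Prod.mk.injEq, true_and, and_true] at h
        exact huv h
      · rw [blockGraph_adj]
        rintro (⟨_, _, h⟩ | ⟨h, _⟩)
        · exact h rfl
        · exact h rfl
      · obtain ⟨z, hz, _⟩ := exists_third hm r r
        refine ⟨(z, false, a), ?_, ?_⟩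
        · rw [blockGraph_adj]
          exact Or.inr ⟨hz.symm, by simp⟩
        · rw [blockGraph_adj]
          exact Or.inr ⟨hz, by simp⟩
    · refine ⟨?_, ?_, ?_⟩
      · intro h
        simp only [Prod.mk.injEq] at h
        exact hrs h.1
      · rw [blockGraph_adj]
        rintro (⟨h, _, _⟩ | ⟨_, h⟩)
        · exact hrs h
        · exact hab h
      · cases hu : u
        · refine ⟨(s, !v, !b), ?_, ?_⟩
          · rw [blockGraph_adj]
            refine Or.inr ⟨hrs, ?_⟩
            revert hab
            subst hu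
            cases a <;> cases b <;> cases v <;> simp
          · rw [blockGraph_adj]
            refine Or.inl ⟨rfl, ?_, ?_⟩
            · cases v <;> simp
            · cases b <;> simp
        · cases hv : v
          · refine ⟨(r, !u, !a), ?_, ?_⟩
            · rw [blockGraph_adj]
              refine Or.inl ⟨rfl, ?_, ?_⟩
              · subst hu; simp
              · cases a <;> simp
            · rw [blockGraph_adj]
              refine Or.inr ⟨hrs, ?_⟩
              revert hab
              subst hu hv
              cases a <;> cases b <;> simp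
          · obtain ⟨z, hz1, hz2⟩ := exists_third hm r s
            refine ⟨(z, false, a), ?_, ?_⟩
            · rw [blockGraph_adj]
              exact Or.inr ⟨hz1.symm, by simp⟩
            · rw [blockGraph_adj]
              refine Or.inr ⟨hz2, ?_⟩
              revert hab
              subst hu hv
              cases a <;> cases b <;> simp

/-- the isomorphism from the 2-distance graph -/
def blockEquiv (m : ℕ) : (Fin m × Bool × Bool) ≃ (Fin m × Bool × Bool) where
  toFun x := (x.1, !x.2.1, xor x.2.2 x.2.1)
  invFun x := (x.1, !x.2.1, xor x.2.2 (!x.2.1))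
  left_inv := by
    rintro ⟨r, u, a⟩
    cases u <;> cases a <;> simp
  right_inv := by
    rintro ⟨r, u, a⟩
    cases u <;> cases a <;> simp

def blockIso (m : ℕ) (hm : 3 ≤ m) : twoDistanceGraph (blockGraph m) ≃g blockGraph m where
  toEquiv := blockEquiv m
  map_rel_iff' := by
    rintro ⟨r, u, a⟩ ⟨s, v, b⟩
    change (blockGraph m).Adj (r, !u, xor a u) (s, !v, xor b v) ↔
      (blockGraph m).dist (r, u, a) (s, v, b) = 2
    rw [blockGraph_dist m hm, blockGraph_adj]
    by_cases hrs : r = s
    · subst hrs
      cases u <;> cases v <;> cases a <;> cases b <;> simp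
    · cases u <;> cases v <;> cases a <;> cases b <;> simp [hrs]

lemma blockGraph_neighbor (m : ℕ) (x : Fin m × Bool × Bool) :
    ((blockGraph m).neighborSet x).ncard = 2 * m - 1 := by
  classical
  obtain ⟨r, u, a⟩ := x
  have hset : (blockGraph m).neighborSet (r, u, a) =
      (fun p : Fin m × Bool => (p.1, p.2, if p.1 = r then !a else xor a (u && p.2))) ''
        {p | p ≠ (r, u)} := by
    ext ⟨s, v, b⟩
    rw [SimpleGraph.mem_neighborSet, blockGraph_adj]
    constructor
    · rintro (⟨h1, h2, h3⟩ | ⟨h1, h2⟩)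
      · refine ⟨(s, v), ?_, ?_⟩
        · simp only [Set.mem_ofPred_eq, ne_eq, Prod.mk.injEq, not_and]
          intro _ h
          exact h2 h.symm
        · subst h1
          simp only [if_true, Prod.mk.injEq, true_and]
          revert h3
          cases a <;> cases b <;> simp
      · refine ⟨(s, v), ?_, ?_⟩
        · simp only [Set.mem_ofPred_eq, ne_eq, Prod.mk.injEq, not_and]
          intro h
          exact absurd h.symm h1
        · simp only [if_neg (Ne.symm h1), Prod.mk.injEq, true_and]
          rw [← h2]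
          cases a <;> cases b <;> rfl
    · rintro ⟨⟨s', v'⟩, h1, h2⟩
      simp only [Prod.mk.injEq] at h2
      obtain ⟨rfl, rfl, rfl⟩ := h2
      simp only [Set.mem_ofPred_eq, ne_eq, Prod.mk.injEq, not_and] at h1
      by_cases h : s' = r
      · subst h
        left
        refine ⟨rfl, fun h' => h1 rfl h'.symm, ?_⟩
        simp only [if_true]
        cases a <;> simp
      · right
        refine ⟨fun h' => h h'.symm, ?_⟩
        simp only [if_neg h]
        cases a <;> cases u <;> cases v' <;> rfl
  rw [hset, Set.ncard_image_of_injective]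
  · have h1 : {p : Fin m × Bool | p ≠ (r, u)} =
        (((Finset.univ : Finset (Fin m × Bool)).erase (r, u) : Finset (Fin m × Bool)) :
          Set (Fin m × Bool)) := by
      ext p
      simp
    rw [h1, Set.ncard_coe_finset, Finset.card_erase_of_mem (Finset.mem_univ _), Finset.card_univ,
      Fintype.card_prod, Fintype.card_fin, Fintype.card_bool, mul_comm]
  · rintro ⟨s, v⟩ ⟨s', v'⟩ h
    simp only [Prod.mk.injEq] at h
    exact Prod.ext h.1 h.2.1

lemma blockGraph_connected (m : ℕ) (hm : 3 ≤ m) : (blockGraph m).Connected := by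
  have h2 : ∀ x y : Fin m × Bool × Bool, (blockGraph m).dist x y = 2 →
      (blockGraph m).Reachable x y := by
    intro x y h
    by_contra hr
    rw [SimpleGraph.dist_eq_zero_of_not_reachable hr] at h
    omega
  have h3 : ∀ (r s : Fin m) (u v a b : Bool), r ≠ s →
      (blockGraph m).Reachable (r, u, a) (s, v, b) := by
    intro r s u v a b hrs
    by_cases h : xor a b = (u && v)
    · exact (show (blockGraph m).Adj (r, u, a) (s, v, b) from Or.inr ⟨hrs, h⟩).reachable
    · exact h2 _ _ ((blockGraph_dist m hm r s u v a b).2 (Or.inr ⟨hrs, h⟩))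
  have : Nonempty (Fin m × Bool × Bool) := ⟨(⟨0, by omega⟩, true, true)⟩
  refine ⟨?_⟩
  rintro ⟨r, u, a⟩ ⟨s, v, b⟩
  obtain ⟨z, hz1, hz2⟩ := exists_third hm r s
  exact (h3 r z u v a b hz1.symm).trans (h3 z s v v b b hz2)

/-- transport of the 2-distance graph along an isomorphism -/
def twoDistanceIso {V W : Type*} {G : SimpleGraph V} {G' : SimpleGraph W} (f : G ≃g G') :
    twoDistanceGraph G ≃g twoDistanceGraph G' where
  toEquiv := f.toEquiv
  map_rel_iff' := by
    intro u v
    change G'.dist (f u) (f v) = 2 ↔ G.dist u v = 2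
    rw [dist_eq_two_iff, dist_eq_two_iff]
    constructor
    · rintro ⟨h1, h2, w, h3, h4⟩
      refine ⟨fun h => h1 (by rw [h]), fun h => h2 (f.map_adj_iff.2 h), f.symm w, ?_, ?_⟩
      · rw [← f.map_adj_iff, f.apply_symm_apply]
        exact h3
      · rw [← f.map_adj_iff, f.apply_symm_apply]
        exact h4
    · rintro ⟨h1, h2, w, h3, h4⟩
      exact ⟨fun h => h1 (f.injective h), fun h => h2 (f.map_adj_iff.1 h), f w,
        f.map_adj_iff.2 h3, f.map_adj_iff.2 h4⟩

/-- For every odd `k ≥ 5` there is a connected `k`-regular graph on `2k+2` vertices which is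
isomorphic to its 2-distance graph. -/
theorem result (k : ℕ) (hk : Odd k) (hk5 : 5 ≤ k) :
    ∃ G : SimpleGraph (Fin (2 * k + 2)), G.Connected ∧
      (∀ v, (G.neighborSet v).ncard = k) ∧ Nonempty (twoDistanceGraph G ≃g G) := by
  classical
  obtain ⟨j, hj⟩ := hk
  set m := j + 1 with hm
  have hm3 : 3 ≤ m := by omega
  have hcard : Fintype.card (Fin m × Bool × Bool) = 2 * k + 2 := by
    rw [Fintype.card_prod, Fintype.card_prod, Fintype.card_fin, Fintype.card_bool]
    omega
  let e : Fin (2 * k + 2) ≃ (Fin m × Bool × Bool) :=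
    (finCongr hcard.symm).trans (Fintype.equivFin (Fin m × Bool × Bool)).symm
  let G : SimpleGraph (Fin (2 * k + 2)) := (blockGraph m).comap e
  let φ : G ≃g blockGraph m := SimpleGraph.Iso.comap e (blockGraph m)
  refine ⟨G, ?_, ?_, ?_⟩
  · exact (SimpleGraph.Iso.connected_iff φ).2 (blockGraph_connected m hm3)
  · intro v
    have h1 : (blockGraph m).neighborSet (φ v) = φ '' (G.neighborSet v) := by
      ext w
      simp only [SimpleGraph.mem_neighborSet, Set.mem_image]
      constructor
      · intro h
        refine ⟨φ.symm w, ?_, φ.apply_symm_apply w⟩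
        rw [← φ.map_adj_iff, φ.apply_symm_apply]
        exact h
      · rintro ⟨w', h, rfl⟩
        exact φ.map_adj_iff.2 h
    have h2 := blockGraph_neighbor m (φ v)
    rw [h1, Set.ncard_image_of_injective _ φ.injective] at h2
    rw [h2]
    omega
  · exact ⟨((twoDistanceIso φ).trans (blockIso m hm3)).trans φ.symm⟩

end Pool.Agent.Results.MP_325f40_co.OddRegularSelfTwoDistance
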